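import Pool.Agent.Q166.TR.RANK
import Pool.Agent.Q256.T6.Fib

set_option autoImplicit false

namespace Q166.TR

open Polynomial Q273.TR
open Pool.Agent.Q256.T6 (mah one_le_mah mah_nonneg mah_mul coeff_le_mah)

/-- value of an integral polynomial -/
noncomputable def ev (P : ℤ[X]) (z : ℝ) : ℝ := (P.map (Int.castRingHom ℝ)).eval z

lemma DD_zero (P : ℤ[X]) (z : ℝ) : DD 0 P z = ev P z := by
  unfold DD ev
  rw [hasseDeriv_zero']

lemma ev_mul (P Q : ℤ[X]) (z : ℝ) : ev (P * Q) z = ev P z * ev Q z := by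
  unfold ev
  rw [Polynomial.map_mul, eval_mul]

lemma ev_C (c : ℤ) (z : ℝ) : ev (C c) z = c := by
  unfold ev
  simp

lemma ev_Pv {n : ℕ} (a : Fin n → ℤ) (z : ℝ) : ev (Pv a) z = ∑ i, (a i : ℝ) * z ^ (i : ℕ) := by
  unfold ev Pv Pf
  rw [Polynomial.map_sum, eval_finsetSum]
  refine Finset.sum_congr rfl fun i _ => ?_
  simp

/-- Dirichlet's theorem -/
lemma dirich (s N : ℕ) (hs : 1 ≤ s) (hN : 1 ≤ N) (z : ℝ) : ∃ a : Fin (s + 1) → ℤ, a ≠ 0 ∧
    (∀ i : Fin s, |(a i.succ : ℝ)| ≤ N) ∧ |ev (Pv a) z| ≤ 1 / (N : ℝ) ^ s := by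
  have hNr : (0 : ℝ) < (N : ℝ) := by exact_mod_cast hN
  set F : (Fin s → Fin (N + 1)) → ℝ := fun b => ∑ i, ((b i : ℕ) : ℝ) * z ^ ((i : ℕ) + 1) with hF
  have hlt : ∀ b, ⌊(N : ℝ) ^ s * Int.fract (F b)⌋₊ < N ^ s := by
    intro b
    rw [Nat.floor_lt (by have := Int.fract_nonneg (F b); positivity)]
    push_cast
    have := Int.fract_lt_one (F b)
    have h2 : (0 : ℝ) < (N : ℝ) ^ s := by positivity
    nlinarith
  have hcard : Fintype.card (Fin (N ^ s)) < Fintype.card (Fin s → Fin (N + 1)) := by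
    rw [Fintype.card_fin, Fintype.card_fun, Fintype.card_fin, Fintype.card_fin]
    exact Nat.pow_lt_pow_left (Nat.lt_succ_self N) (by omega)
  obtain ⟨b, b', hbb, hfe⟩ := Fintype.exists_ne_map_eq_of_card_lt
    (fun b : Fin s → Fin (N + 1) => (⟨⌊(N : ℝ) ^ s * Int.fract (F b)⌋₊, hlt b⟩ : Fin (N ^ s))) hcard
  have hfl : ⌊(N : ℝ) ^ s * Int.fract (F b)⌋₊ = ⌊(N : ℝ) ^ s * Int.fract (F b')⌋₊ :=
    congrArg Fin.val hfe
  refine ⟨Fin.cons (-(⌊F b⌋ - ⌊F b'⌋)) (fun i => ((b i : ℕ) : ℤ) - ((b' i : ℕ) : ℤ)), ?_, ?_, ?_⟩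
  · intro h0
    apply hbb
    funext i
    have h1 := congrFun h0 i.succ
    simp only [Fin.cons_succ, Pi.zero_apply] at h1
    exact Fin.ext (by omega)
  · intro i
    simp only [Fin.cons_succ]
    have h1 : ((b i : ℕ) : ℝ) ≤ N := by exact_mod_cast Nat.lt_succ_iff.mp (b i).2
    have h2 : ((b' i : ℕ) : ℝ) ≤ N := by exact_mod_cast Nat.lt_succ_iff.mp (b' i).2
    have h3 : (0 : ℝ) ≤ ((b i : ℕ) : ℝ) := Nat.cast_nonneg _
    have h4 : (0 : ℝ) ≤ ((b' i : ℕ) : ℝ) := Nat.cast_nonneg _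
    push_cast
    rw [abs_le]
    constructor <;> linarith
  · have hev : ev (Pv (Fin.cons (-(⌊F b⌋ - ⌊F b'⌋))
        (fun i => ((b i : ℕ) : ℤ) - ((b' i : ℕ) : ℤ)) : Fin (s + 1) → ℤ)) z =
        Int.fract (F b) - Int.fract (F b') := by
      rw [ev_Pv, Fin.sum_univ_succ]
      simp only [Fin.cons_zero, Fin.cons_succ, Fin.val_zero, pow_zero, mul_one, Fin.val_succ]
      have h1 : ∑ x : Fin s, (((((b x : ℕ) : ℤ) - ((b' x : ℕ) : ℤ) : ℤ)) : ℝ) * z ^ ((x : ℕ) + 1) =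
          F b - F b' := by
        rw [hF]
        simp only
        rw [← Finset.sum_sub_distrib]
        refine Finset.sum_congr rfl fun x _ => ?_
        push_cast
        ring
      rw [h1]
      unfold Int.fract
      push_cast
      ring
    rw [hev, le_div_iff₀ (by positivity)]
    have h1 := Nat.floor_le (a := (N : ℝ) ^ s * Int.fract (F b))
      (by have := Int.fract_nonneg (F b); positivity)
    have h2 := Nat.lt_floor_add_one ((N : ℝ) ^ s * Int.fract (F b))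
    have h3 := Nat.floor_le (a := (N : ℝ) ^ s * Int.fract (F b'))
      (by have := Int.fract_nonneg (F b'); positivity)
    have h4 := Nat.lt_floor_add_one ((N : ℝ) ^ s * Int.fract (F b'))
    rw [hfl] at h1 h2
    have h5 : |Int.fract (F b) - Int.fract (F b')| * (N : ℝ) ^ s =
        |(N : ℝ) ^ s * Int.fract (F b) - (N : ℝ) ^ s * Int.fract (F b')| := by
      rw [← mul_sub, abs_mul, abs_of_pos (by positivity : (0 : ℝ) < (N : ℝ) ^ s)]
      ring
    rw [h5, abs_le]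
    constructor <;> linarith

/-- a finite set of positive values has a positive lower bound -/
lemma exists_lb {α : Type} {S : Set α} (hS : S.Finite) (g : α → ℝ) (hg : ∀ a ∈ S, 0 < g a) :
    ∃ c : ℝ, 0 < c ∧ ∀ a ∈ S, c ≤ g a := by
  by_cases hne : S.Nonempty
  · obtain ⟨a, ha, hmin⟩ := Set.exists_min_image S g hS hne
    exact ⟨g a, hg a ha, hmin⟩
  · rw [Set.not_nonempty_iff_eq_empty] at hne
    exact ⟨1, one_pos, fun a ha => by rw [hne] at ha; exact absurd ha (Set.notMem_empty a)⟩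

lemma sz_le {n : ℕ} (u : Fin n → ℤ) (B : ℝ) (h : ∀ i, |(u i : ℝ)| ≤ B) (hB : 0 ≤ B) :
    (sz u : ℝ) ≤ B := by
  have h1 : sz u ≤ ⌊B⌋₊ := by
    unfold sz
    refine Finset.sup_le fun i _ => ?_
    rw [Nat.le_floor_iff hB, Nat.cast_natAbs, Int.cast_abs]
    exact h i
  exact (Nat.cast_le.mpr h1).trans (Nat.floor_le hB)

lemma abs_le_sz {n : ℕ} (u : Fin n → ℤ) (i : Fin n) : |(u i : ℝ)| ≤ sz u := by
  have h1 : (u i).natAbs ≤ sz u := Finset.le_sup (f := fun i => (u i).natAbs) (Finset.mem_univ i)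
  have h2 : (((u i).natAbs : ℕ) : ℝ) ≤ sz u := by exact_mod_cast h1
  rwa [Nat.cast_natAbs, Int.cast_abs] at h2

lemma one_le_sz {n : ℕ} {u : Fin n → ℤ} (h : u ≠ 0) : (1 : ℝ) ≤ sz u := by
  obtain ⟨i, hi⟩ := Function.ne_iff.mp h
  refine le_trans ?_ (abs_le_sz u i)
  have : 1 ≤ |u i| := Int.one_le_abs hi
  exact_mod_cast this

lemma sz_le_mah {n : ℕ} (u : Fin (n + 1) → ℤ) : (sz u : ℝ) ≤ 2 ^ n * mah (Pv u) := by
  have h0 := mah_nonneg (Pv u)
  refine sz_le u _ (fun i => ?_) (by positivity)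
  have hd : (Pv u).natDegree ≤ n := by
    by_cases h : Pv u = 0
    · rw [h]; simp
    · exact Nat.lt_succ_iff.mp (natDegree_Pv_lt u h)
  have h1 := coeff_le_mah (Pv u) n hd i
  rw [coeff_Pv, dif_pos i.2] at h1
  exact h1

lemma mah_le_sz {n : ℕ} (u : Fin (n + 1) → ℤ) (B : ℝ) (h : ∀ i, |(u i : ℝ)| ≤ B) (hB : 0 ≤ B) :
    mah (Pv u) ≤ (n + 1) * B := by
  unfold mah
  refine (Polynomial.mahlerMeasure_le_sum_norm_coeff _).trans ?_
  rw [Polynomial.sum_def]
  have h1 : ((Pv u).map (Int.castRingHom ℂ)).support ⊆ Finset.range (n + 1) := by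
    intro i hi
    rw [Finset.mem_range]
    by_contra hcon
    rw [Polynomial.mem_support_iff, Polynomial.coeff_map, coeff_Pv, dif_neg hcon] at hi
    simp at hi
  have h2 : ∀ i ∈ ((Pv u).map (Int.castRingHom ℂ)).support,
      ‖((Pv u).map (Int.castRingHom ℂ)).coeff i‖ ≤ B := by
    intro i _
    rw [Polynomial.coeff_map, Int.coe_castRingHom, Complex.norm_intCast, coeff_Pv]
    split_ifs with h'
    · exact h _
    · simpa using hB
  refine (Finset.sum_le_card_nsmul _ _ B h2).trans ?_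
  rw [nsmul_eq_mul]
  refine mul_le_mul_of_nonneg_right ?_ hB
  have h3 := Finset.card_le_card h1
  rw [Finset.card_range] at h3
  exact_mod_cast h3

lemma Pv_ne {n : ℕ} {a : Fin n → ℤ} (h : a ≠ 0) : Pv a ≠ 0 := by
  intro h0
  apply h
  rw [← cf_Pv a, h0]
  funext i
  simp [cf]

lemma cf_ne {n : ℕ} {P : ℤ[X]} (hP : P ≠ 0) (hd : P.natDegree < n) : cf n P ≠ 0 := by
  intro h
  have h1 : Pv (cf n P) = P := Pv_cf P fun k hk => coeff_eq_zero_of_natDegree_lt (by omega)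
  rw [h] at h1
  apply hP
  rw [← h1]
  unfold Pv Pf
  simp

/-- the hypothesis -/
def Hyp (s : ℕ) (z : ℝ) : Prop := ∀ t : ℕ, 1 ≤ t → t ≤ s → ∀ ε : ℝ, 0 < ε →
    {a : Fin (t + 1) → ℤ | a ≠ 0 ∧ |DD 0 (Pv a) z| ≤ (sz a : ℝ) ^ (-(t : ℝ) - ε)}.Finite

lemma ev_ne {s : ℕ} {z : ℝ} (hs : 1 ≤ s) (H : Hyp s z) {P : ℤ[X]} (hP : P ≠ 0)
    (hd : P.natDegree ≤ s) : ev P z ≠ 0 := by
  intro h0
  have hfin := H s hs le_rfl 1 one_pos
  set a := cf (s + 1) P with ha
  have ha0 : a ≠ 0 := cf_ne hP (by omega)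
  have hPa : Pv a = P := Pv_cf P fun k hk => coeff_eq_zero_of_natDegree_lt (by omega)
  have hinj : Function.Injective (fun k : ℕ => ((k : ℤ) + 1) • a) := by
    intro k l hkl
    obtain ⟨i, hi⟩ := Function.ne_iff.mp ha0
    have h1 := congrFun hkl i
    simp only [Pi.smul_apply, smul_eq_mul] at h1
    have h2 := mul_right_cancel₀ hi h1
    omega
  refine Set.infinite_of_injective_forall_mem hinj (fun k => ?_) hfin
  refine ⟨?_, ?_⟩
  · apply smul_ne_zero _ ha0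
    positivity
  · rw [DD_zero, Pv_smul, ev_mul, hPa, h0, mul_zero, abs_zero]
    positivity

lemma lbt {s : ℕ} {z : ℝ} (hs : 1 ≤ s) (H : Hyp s z) (t : ℕ) (ht : 1 ≤ t) (hts : t ≤ s) (ε : ℝ)
    (hε : 0 < ε) : ∃ c : ℝ, 0 < c ∧ c ≤ 1 ∧ ∀ P : ℤ[X], P ≠ 0 → P.natDegree ≤ t →
      c * mah P ^ (-(t : ℝ) - ε) ≤ |ev P z| := by
  have hfin := H t ht hts ε hε
  obtain ⟨c₀, hc₀, hmin⟩ := exists_lb hfin (fun a => |DD 0 (Pv a) z|) (fun a ha => by
    rw [DD_zero]
    refine abs_pos.mpr (ev_ne hs H (Pv_ne ha.1) ?_)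
    have := natDegree_Pv_lt a (Pv_ne ha.1)
    omega)
  have h2 : (0 : ℝ) < (2 ^ t : ℝ) ^ (-(t : ℝ) - ε) := by positivity
  refine ⟨min (min c₀ 1) ((2 ^ t : ℝ) ^ (-(t : ℝ) - ε)), by positivity,
    (min_le_left _ _).trans (min_le_right _ _), ?_⟩
  intro P hP hd
  have hm := one_le_mah P hP
  have hE : -(t : ℝ) - ε ≤ 0 := by
    have : (0 : ℝ) ≤ t := Nat.cast_nonneg t
    linarith
  set a := cf (t + 1) P with ha
  have ha0 : a ≠ 0 := cf_ne hP (by omega)
  have hPa : Pv a = P := Pv_cf P fun k hk => coeff_eq_zero_of_natDegree_lt (by omega)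
  have hmE : mah P ^ (-(t : ℝ) - ε) ≤ 1 := Real.rpow_le_one_of_one_le_of_nonpos hm hE
  have hmE0 : 0 ≤ mah P ^ (-(t : ℝ) - ε) := by positivity
  by_cases hmem : |DD 0 (Pv a) z| ≤ (sz a : ℝ) ^ (-(t : ℝ) - ε)
  · have h1 := hmin a ⟨ha0, hmem⟩
    rw [DD_zero, hPa] at h1
    have h3 : min (min c₀ 1) ((2 ^ t : ℝ) ^ (-(t : ℝ) - ε)) ≤ c₀ :=
      (min_le_left _ _).trans (min_le_left _ _)
    have h4 : 0 ≤ min (min c₀ 1) ((2 ^ t : ℝ) ^ (-(t : ℝ) - ε)) := by positivity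
    calc _ ≤ c₀ * 1 := mul_le_mul h3 hmE hmE0 hc₀.le
      _ ≤ _ := by rw [mul_one]; exact h1
  · push Not at hmem
    rw [DD_zero, hPa] at hmem
    refine le_trans ?_ hmem.le
    have h5 : (sz a : ℝ) ≤ 2 ^ t * mah P := by
      have := sz_le_mah a
      rwa [hPa] at this
    have h6 : (0 : ℝ) < sz a := lt_of_lt_of_le one_pos (one_le_sz ha0)
    have h7 := Real.rpow_le_rpow_of_nonpos h6 h5 hE
    rw [Real.mul_rpow (by positivity) (by positivity)] at h7
    refine le_trans ?_ h7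
    exact mul_le_mul_of_nonneg_right (min_le_right _ _) hmE0

lemma lb0 {s : ℕ} {z : ℝ} (hs : 1 ≤ s) (H : Hyp s z) : ∃ c : ℝ, 0 < c ∧ c ≤ 1 ∧
    ∀ P : ℤ[X], P ≠ 0 → P.natDegree + 1 ≤ s → c * mah P ^ (-((s : ℝ) - 1 / 2)) ≤ |ev P z| := by
  rcases Nat.lt_or_ge s 2 with h | h
  · refine ⟨1, one_pos, le_rfl, fun P hP hd => ?_⟩
    have h0 : P.natDegree = 0 := by omega
    obtain ⟨c, rfl⟩ : ∃ c, P = C c := ⟨P.coeff 0, eq_C_of_natDegree_eq_zero h0⟩
    have hc : c ≠ 0 := by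
      rintro rfl
      simp at hP
    have h1 : (1 : ℝ) ≤ |(c : ℝ)| := by
      have := Int.one_le_abs hc
      exact_mod_cast this
    rw [ev_C, one_mul]
    refine le_trans ?_ h1
    refine Real.rpow_le_one_of_one_le_of_nonpos (one_le_mah _ hP) ?_
    have : (1 : ℝ) ≤ s := by exact_mod_cast hs
    linarith
  · obtain ⟨c, hc, hc1, h1⟩ := lbt hs H (s - 1) (by omega) (by omega) (1 / 2) (by norm_num)
    refine ⟨c, hc, hc1, fun P hP hd => ?_⟩
    have h2 := h1 P hP (by omega)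
    have e1 : -((s - 1 : ℕ) : ℝ) - 1 / 2 = -((s : ℝ) - 1 / 2) := by
      rw [Nat.cast_sub hs]
      push_cast
      ring
    rwa [e1] at h2

lemma mah_C_ge {c : ℤ} (hc : c ≠ 0) : 1 ≤ mah (C c) := one_le_mah _ (by simpa using hc)

lemma lbk {s : ℕ} {z : ℝ} (hs : 1 ≤ s) (H : Hyp s z) : ∃ c : ℝ, 0 < c ∧
    ∀ P : ℤ[X], P ≠ 0 → P.natDegree ≤ s → ¬ (P.natDegree = s ∧ Irreducible P.primPart) →
      c * mah P ^ (-((s : ℝ) - 1 / 2)) ≤ |ev P z| := by
  obtain ⟨c, hc, hc1, h1⟩ := lb0 hs H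
  refine ⟨c ^ 2, by positivity, fun P hP hd hnot => ?_⟩
  have hE : -((s : ℝ) - 1 / 2) ≤ 0 := by
    have : (1 : ℝ) ≤ s := by exact_mod_cast hs
    linarith
  have hm := one_le_mah P hP
  by_cases hds : P.natDegree = s
  · have hirr : ¬ Irreducible P.primPart := fun h => hnot ⟨hds, h⟩
    have hprim := P.isPrimitive_primPart
    have hg0 : P.primPart ≠ 0 := hprim.ne_zero
    have hgd : P.primPart.natDegree = s := by rw [P.natDegree_primPart, hds]
    have hnu : ¬ IsUnit P.primPart := by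
      intro hu
      have := natDegree_eq_zero_of_isUnit hu
      omega
    rw [irreducible_iff] at hirr
    push Not at hirr
    obtain ⟨a, b, hab, ha, hb⟩ := hirr hnu
    have ha0 : a ≠ 0 := by
      rintro rfl
      rw [zero_mul] at hab
      exact hg0 hab
    have hb0 : b ≠ 0 := by
      rintro rfl
      rw [mul_zero] at hab
      exact hg0 hab
    have hpos : ∀ a : ℤ[X], a ∣ P.primPart → ¬ IsUnit a → 1 ≤ a.natDegree := by
      intro a hdvd hnu
      by_contra hcon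
      have h0 : a.natDegree = 0 := by omega
      obtain ⟨x, rfl⟩ : ∃ x, a = C x := ⟨a.coeff 0, eq_C_of_natDegree_eq_zero h0⟩
      exact hnu (isUnit_C.mpr (hprim x hdvd))
    have hda := hpos a ⟨b, hab⟩ ha
    have hdb := hpos b ⟨a, by rw [hab, mul_comm]⟩ hb
    have hsum : a.natDegree + b.natDegree = s := by
      rw [← natDegree_mul ha0 hb0, ← hab, hgd]
    have hca := h1 a ha0 (by omega)
    have hcb := h1 b hb0 (by omega)
    have hcont : P.content ≠ 0 := by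
      rw [Ne, content_eq_zero_iff]
      exact hP
    have hPe : P = C P.content * (a * b) := by
      conv_lhs => rw [P.eq_C_content_mul_primPart, hab]
    have hev : |ev P z| = |(P.content : ℝ)| * (|ev a z| * |ev b z|) := by
      conv_lhs => rw [hPe]
      rw [ev_mul, ev_C, ev_mul, abs_mul, abs_mul]
    have hmah : mah P = mah (C P.content) * (mah a * mah b) := by
      conv_lhs => rw [hPe]
      rw [mah_mul, mah_mul]
    have hma := one_le_mah a ha0
    have hmb := one_le_mah b hb0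
    have hmle : mah a * mah b ≤ mah P := by
      rw [hmah]
      have := mah_C_ge hcont
      nlinarith [mul_pos (lt_of_lt_of_le one_pos hma) (lt_of_lt_of_le one_pos hmb)]
    have hpow : mah P ^ (-((s : ℝ) - 1 / 2)) ≤
        mah a ^ (-((s : ℝ) - 1 / 2)) * mah b ^ (-((s : ℝ) - 1 / 2)) := by
      rw [← Real.mul_rpow (by positivity) (by positivity)]
      exact Real.rpow_le_rpow_of_nonpos (by positivity) hmle hE
    have hc1' : (1 : ℝ) ≤ |(P.content : ℝ)| := by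
      have := Int.one_le_abs hcont
      exact_mod_cast this
    have hA : 0 ≤ mah a ^ (-((s : ℝ) - 1 / 2)) := by positivity
    have hB : 0 ≤ mah b ^ (-((s : ℝ) - 1 / 2)) := by positivity
    calc c ^ 2 * mah P ^ (-((s : ℝ) - 1 / 2)) ≤
          c ^ 2 * (mah a ^ (-((s : ℝ) - 1 / 2)) * mah b ^ (-((s : ℝ) - 1 / 2))) :=
          mul_le_mul_of_nonneg_left hpow (by positivity)
      _ = (c * mah a ^ (-((s : ℝ) - 1 / 2))) * (c * mah b ^ (-((s : ℝ) - 1 / 2))) := by ring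
      _ ≤ |ev a z| * |ev b z| := mul_le_mul hca hcb (by positivity) (abs_nonneg _)
      _ ≤ |(P.content : ℝ)| * (|ev a z| * |ev b z|) := by
          have : 0 ≤ |ev a z| * |ev b z| := by positivity
          nlinarith
      _ = |ev P z| := hev.symm
  · have h2 := h1 P hP (by omega)
    refine le_trans ?_ h2
    have : c ^ 2 ≤ c := by nlinarith
    exact mul_le_mul_of_nonneg_right this (by positivity)

theorem diri : S_DIRI := by
  intro s z hs H
  have hsr : (1 : ℝ) ≤ s := by exact_mod_cast hs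
  obtain ⟨c₂, hc₂, hK⟩ := lbk hs H
  set C₁ : ℝ := 1 + ∑ i : Fin s, |z| ^ ((i : ℕ) + 1) with hC₁
  have hC₁1 : 1 ≤ C₁ := by
    have : 0 ≤ ∑ i : Fin s, |z| ^ ((i : ℕ) + 1) := Finset.sum_nonneg fun i _ => by positivity
    linarith
  set C₂ : ℝ := (s + 1) * C₁ with hC₂
  have hC₂0 : 0 < C₂ := by positivity
  set C₃ : ℝ := 2 ^ s * C₂ with hC₃
  have hC₃0 : 0 < C₃ := by positivity
  refine ⟨C₃ ^ s, ?_⟩
  intro hfin
  obtain ⟨c₄, hc₄, hmin⟩ := exists_lb hfin (fun a => |ev (Pv a) z|) (fun a ha => by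
    refine abs_pos.mpr (ev_ne hs H ha.1.ne_zero ?_)
    have := natDegree_Pv_lt a ha.1.ne_zero
    omega)
  -- choice of N
  obtain ⟨N, hN⟩ := exists_nat_gt (max (1 / c₄) (max ((C₂ ^ ((s : ℝ) - 1 / 2) / c₂) ^ 2) 1))
  have hN1 : (1 : ℝ) < N := lt_of_le_of_lt ((le_max_right _ _).trans (le_max_right _ _)) hN
  have hNc : 1 / c₄ < N := lt_of_le_of_lt (le_max_left _ _) hN
  have hNC : (C₂ ^ ((s : ℝ) - 1 / 2) / c₂) ^ 2 < N :=
    lt_of_le_of_lt ((le_max_left _ _).trans (le_max_right _ _)) hN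
  have hN0 : (0 : ℝ) < N := by linarith
  have hNn : 1 ≤ N := by
    have : (0 : ℝ) < (N : ℝ) := hN0
    exact_mod_cast this
  obtain ⟨a, ha0, hai, hae⟩ := dirich s N hs hNn z
  set P := Pv a with hP
  have hP0 : P ≠ 0 := Pv_ne ha0
  have hPd : P.natDegree ≤ s := Nat.lt_succ_iff.mp (natDegree_Pv_lt a hP0)
  have hNs : 1 / (N : ℝ) ^ s ≤ 1 := by
    rw [div_le_one (by positivity)]
    exact one_le_pow₀ hN1.le
  -- all coefficients
  have hall : ∀ i, |(a i : ℝ)| ≤ C₁ * N := by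
    intro i
    refine Fin.cases ?_ (fun i => ?_) i
    · have h1 : ev P z = (a 0 : ℝ) + ∑ i : Fin s, (a i.succ : ℝ) * z ^ ((i : ℕ) + 1) := by
        rw [hP, ev_Pv, Fin.sum_univ_succ]
        simp
      have h2 : |∑ i : Fin s, (a i.succ : ℝ) * z ^ ((i : ℕ) + 1)| ≤
          N * ∑ i : Fin s, |z| ^ ((i : ℕ) + 1) := by
        rw [Finset.mul_sum]
        refine (Finset.abs_sum_le_sum_abs _ _).trans (Finset.sum_le_sum fun i _ => ?_)
        rw [abs_mul, abs_pow]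
        exact mul_le_mul_of_nonneg_right (hai i) (by positivity)
      have h3 : (a 0 : ℝ) = ev P z - ∑ i : Fin s, (a i.succ : ℝ) * z ^ ((i : ℕ) + 1) := by
        rw [h1]; ring
      rw [h3]
      refine (abs_sub _ _).trans ?_
      have h4 : |ev P z| ≤ N := hae.trans (hNs.trans hN1.le)
      rw [hC₁]
      nlinarith
    · refine (hai i).trans ?_
      nlinarith
  have hmP : mah P ≤ C₂ * N := by
    have := mah_le_sz a (C₁ * N) hall (by positivity)
    rw [hC₂, mul_assoc]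
    exact this
  have hmP1 := one_le_mah P hP0
  have hE : -((s : ℝ) - 1 / 2) ≤ 0 := by linarith
  -- the polynomial is essentially irreducible of degree s
  have hirr : P.natDegree = s ∧ Irreducible P.primPart := by
    by_contra hnot
    have h1 := hK P hP0 hPd hnot
    have h2 : (C₂ * N) ^ (-((s : ℝ) - 1 / 2)) ≤ mah P ^ (-((s : ℝ) - 1 / 2)) :=
      Real.rpow_le_rpow_of_nonpos (by positivity) hmP hE
    have h3 : c₂ * (C₂ * N) ^ (-((s : ℝ) - 1 / 2)) ≤ 1 / (N : ℝ) ^ s :=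
      (mul_le_mul_of_nonneg_left h2 hc₂.le).trans (h1.trans hae)
    rw [Real.rpow_neg (by positivity), Real.mul_rpow hC₂0.le hN0.le, Real.rpow_sub hN0,
      Real.rpow_natCast] at h3
    set A := C₂ ^ ((s : ℝ) - 1 / 2) with hA
    have hA0 : 0 < A := by positivity
    set r := (N : ℝ) ^ (1 / 2 : ℝ) with hr
    have hr0 : 0 < r := by positivity
    have hNs0 : (0 : ℝ) < (N : ℝ) ^ s := by positivity
    have h4 : c₂ * r / A ≤ 1 := by
      have e1 : c₂ * (A * ((N : ℝ) ^ s / r))⁻¹ = (c₂ * r / A) * (1 / (N : ℝ) ^ s) := by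
        field_simp
      rw [e1] at h3
      have h5 : 0 < 1 / (N : ℝ) ^ s := by positivity
      by_contra hc
      push Not at hc
      nlinarith
    rw [div_le_one hA0] at h4
    have h6 : A / c₂ < r := by
      rw [hr, ← Real.sqrt_eq_rpow]
      refine Real.lt_sqrt_of_sq_lt ?_
      exact hNC
    rw [div_lt_iff₀ hc₂] at h6
    linarith
  obtain ⟨hds, hir⟩ := hirr
  set f := P.primPart with hf
  have hfd : f.natDegree = s := by rw [hf, P.natDegree_primPart, hds]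
  have hf0 : f ≠ 0 := hir.ne_zero
  set u := cf (s + 1) f with hu
  have hPu : Pv u = f := Pv_cf f fun k hk => coeff_eq_zero_of_natDegree_lt (by omega)
  have hu0 : u ≠ 0 := cf_ne hf0 (by omega)
  have hcont : P.content ≠ 0 := by
    rw [Ne, content_eq_zero_iff]
    exact hP0
  have hPe : P = C P.content * f := P.eq_C_content_mul_primPart
  have hevf : |ev f z| ≤ 1 / (N : ℝ) ^ s := by
    refine le_trans ?_ hae
    conv_rhs => rw [hPe]
    rw [ev_mul, ev_C, abs_mul]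
    have hc1' : (1 : ℝ) ≤ |(P.content : ℝ)| := by
      have := Int.one_le_abs hcont
      exact_mod_cast this
    nlinarith [abs_nonneg (ev f z)]
  have hmf : mah f ≤ C₂ * N := by
    refine le_trans ?_ hmP
    conv_rhs => rw [hPe]
    rw [mah_mul]
    have h1 := mah_C_ge hcont
    have h2 := mah_nonneg f
    nlinarith
  have hszu : (sz u : ℝ) ≤ C₃ * N := by
    have h1 := sz_le_mah u
    rw [hPu] at h1
    refine h1.trans ?_
    rw [hC₃, mul_assoc]
    exact mul_le_mul_of_nonneg_left hmf (by positivity)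
  have hsz0 : (0 : ℝ) < sz u := lt_of_lt_of_le one_pos (one_le_sz hu0)
  have hmemS : u ∈ {a : Fin (s + 1) → ℤ | Irreducible (Pv a) ∧ a (Fin.last s) ≠ 0 ∧
      |DD 0 (Pv a) z| ≤ C₃ ^ s * (sz a : ℝ) ^ (-(s : ℝ))} := by
    refine ⟨by rw [hPu]; exact hir, ?_, ?_⟩
    · change f.coeff ((Fin.last s : Fin (s + 1)) : ℕ) ≠ 0
      rw [Fin.val_last]
      have : f.coeff f.natDegree ≠ 0 := by
        rw [coeff_natDegree]
        exact leadingCoeff_ne_zero.mpr hf0
      rwa [hfd] at this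
    · rw [DD_zero, hPu, Real.rpow_neg hsz0.le, Real.rpow_natCast]
      refine hevf.trans ?_
      rw [← div_eq_mul_inv, div_le_div_iff₀ (by positivity) (by positivity), one_mul,
        ← mul_pow]
      exact pow_le_pow_left₀ hsz0.le hszu s
  have h1 := hmin u hmemS
  rw [hPu] at h1
  have h2 : 1 / (N : ℝ) ^ s ≤ 1 / N := by
    refine one_div_le_one_div_of_le hN0 ?_
    calc (N : ℝ) = (N : ℝ) ^ 1 := (pow_one _).symm
      _ ≤ (N : ℝ) ^ s := pow_le_pow_right₀ hN1.le hs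
  have h3 : 1 / (N : ℝ) < c₄ := by
    rw [div_lt_iff₀ hN0]
    rw [div_lt_iff₀ hc₄] at hNc
    linarith
  linarith

end Q166.TR
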