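import Pool.Agent.Q273.TR.Stm
import Pool.Agent.H116R3.Ex680B
import Pool.Agent.Helper404.Wron

set_option autoImplicit false

namespace Q166.TR

open Polynomial MeasureTheory Q273.TR

open Pool.Agent.Helper404 (jets kmC kmC_nonneg)
open Pool.Agent.H680R3.EX (Lf TaskB)

/-- Wronskians of independent integral polynomials -/
lemma wron_ne_zero {j : ℕ} (p : Fin j → ℤ[X])
    (hp : LinearIndependent ℚ (fun a => (p a).map (Int.castRingHom ℚ))) :
    Matrix.det (Matrix.of fun a b : Fin j => hasseDeriv (b : ℕ) (p a)) ≠ 0 := by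
  intro hW
  obtain ⟨Z, hZ⟩ := jets j _ hp
  obtain ⟨z, hz⟩ := Infinite.exists_notMem_finset Z
  have h1 : Matrix.det (Matrix.of fun a b : Fin j =>
      (hasseDeriv (b : ℕ) ((p a).map (Int.castRingHom ℚ))).eval z) = 0 := by
    have h2 := congrArg (fun p : ℤ[X] => (p.map (Int.castRingHom ℚ)).eval z) hW
    simp only [Polynomial.map_zero, eval_zero] at h2
    rw [← h2]
    have h3 : ((Matrix.det (Matrix.of fun a b : Fin j => hasseDeriv (b : ℕ) (p a))).map
        (Int.castRingHom ℚ)).eval z = ((evalRingHom z).comp (mapRingHom (Int.castRingHom ℚ)))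
          (Matrix.det (Matrix.of fun a b : Fin j => hasseDeriv (b : ℕ) (p a))) := rfl
    rw [h3, RingHom.map_det]
    congr 1
    ext a b
    simp only [Matrix.of_apply, RingHom.mapMatrix_apply, Matrix.map_apply, RingHom.comp_apply,
      coe_mapRingHom, coe_evalRingHom]
    congr 1
    ext k
    simp [hasseDeriv_coeff]
  obtain ⟨c, hc0, hc⟩ := Matrix.exists_vecMul_eq_zero_iff.2 h1
  apply hc0
  apply hZ z hz c
  rw [X_sub_C_pow_dvd_iff, X_pow_dvd_iff]
  intro d hd
  have h4 := congrFun hc ⟨d, hd⟩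
  simp only [Matrix.vecMul, dotProduct, Matrix.of_apply, Pi.zero_apply] at h4
  have h5 : ((∑ a, C (c a) * (p a).map (Int.castRingHom ℚ)).comp (X + C z)).coeff d =
      (hasseDeriv d (∑ a, C (c a) * (p a).map (Int.castRingHom ℚ))).eval z := by
    rw [← taylor_coeff, taylor_apply]
  rw [h5, map_sum, eval_finsetSum, ← h4]
  refine Finset.sum_congr rfl (fun a _ => ?_)
  rw [← smul_eq_C_mul, map_smul, eval_smul, smul_eq_mul]

lemma indep_map {N : ℕ} {f : Fin N → ℤ[X]} (hf : LinearIndependent ℤ f) :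
    LinearIndependent ℚ (fun i => (f i).map (Int.castRingHom ℚ)) := by
  rw [← LinearIndependent.iff_fractionRing ℤ ℚ]
  have h := hf.map' ((Polynomial.mapRingHom (Int.castRingHom ℚ)).toAddMonoidHom.toIntLinearMap) (by
    rw [LinearMap.ker_eq_bot]
    intro a b hab
    exact Polynomial.map_injective (Int.castRingHom ℚ) Int.cast_injective hab)
  exact h

lemma Pf_map {N : ℕ} (f : Fin N → ℤ[X]) (u : Fin N → ℤ) :
    (Pf f u).map (Int.castRingHom ℚ) = ∑ i, (u i : ℚ) • (f i).map (Int.castRingHom ℚ) := by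
  unfold Pf
  rw [Polynomial.map_sum]
  refine Finset.sum_congr rfl fun i _ => ?_
  rw [Polynomial.map_mul, Polynomial.map_C, smul_eq_C_mul]
  rfl

lemma indep_comb {N j : ℕ} {f : Fin N → ℤ[X]} (hf : LinearIndependent ℤ f)
    (v : Fin j → Fin N → ℤ) (hv : LinearIndependent ℚ (fun a i => (v a i : ℚ))) :
    LinearIndependent ℚ (fun a => (Pf f (v a)).map (Int.castRingHom ℚ)) := by
  have hF := indep_map hf
  rw [Fintype.linearIndependent_iff] at hF hv ⊢
  intro g hg
  apply hv g
  have h1 : ∑ i, (∑ a, g a * (v a i : ℚ)) • (f i).map (Int.castRingHom ℚ) = 0 := by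
    rw [← hg]
    simp only [Pf_map, Finset.smul_sum, Finset.sum_smul, mul_smul]
    rw [Finset.sum_comm]
  have h2 := hF _ h1
  ext i
  simp only [Finset.sum_apply, Pi.smul_apply, smul_eq_mul, Pi.zero_apply]
  exact h2 i

lemma Lf_eq {N : ℕ} (f : Fin N → ℤ[X]) (k : Fin N) (u : Fin N → ℤ) :
    Lf (fun (k i : Fin N) => hasseDeriv (k : ℕ) (f i)) k u = hasseDeriv (k : ℕ) (Pf f u) := by
  unfold Lf Pf
  rw [map_sum]
  refine Finset.sum_congr rfl fun i _ => ?_
  rw [← smul_eq_C_mul, ← smul_eq_C_mul, map_smul]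

/-- the weights -/
noncomputable def wts (m : ℕ) (κ K T : ℝ) (k : Fin (m + 2)) : ℝ :=
  if (k : ℕ) = 0 then κ else if (k : ℕ) = 1 then K else T

lemma prod_wts (m : ℕ) (κ K T : ℝ) (j : ℕ) (hj : j ≤ m) :
    ∏ b : Fin (j + 2), (if (b : ℕ) = 0 then κ else if (b : ℕ) = 1 then K else T) =
      κ * K * T ^ j := by
  rw [Fin.prod_univ_succ, Fin.prod_univ_succ]
  simp only [Fin.val_zero, Fin.val_succ, if_true, zero_add, Nat.add_eq_zero_iff, one_ne_zero,
    and_false, if_false]
  have : ∀ x : Fin j, (if (x : ℕ) + 1 + 1 = 1 then K else T) = T := by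
    intro x
    rw [if_neg (by omega)]
  simp only [this]
  simp [mul_assoc]

theorem kmv : S_KMV := by
  intro m d
  set N : ℕ := m + 2 with hN
  set D : ℕ := max d 1 with hD
  set M : ℕ := N * D with hM
  have hD1 : 1 ≤ D := le_max_right _ _
  have hN1 : 1 ≤ N := by omega
  have hM1 : 1 ≤ M := Nat.mul_pos hN1 hD1
  have hMr : (0 : ℝ) < M := by exact_mod_cast hM1
  have hNr : (0 : ℝ) < N := by exact_mod_cast hN1
  set c : ℝ := 1 / ((M : ℝ) + 1) ^ M with hc
  have hc0 : 0 < c := by positivity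
  set km : ℝ := kmC (4 * ((M : ℝ) + 1) ^ 2) N with hkm
  have hkm0 : 0 ≤ km := kmC_nonneg (by positivity) N
  set δ : ℝ := 1 / ((N : ℝ) * M) with hδ
  have hδ0 : 0 < δ := by positivity
  set A1 : ℝ := (2 * N) ^ (1 / (M : ℝ)) * (1 / c) ^ δ with hA1
  have hA10 : 0 < A1 := by positivity
  set B1 : ℝ := ((2 * N) ^ N / c) ^ δ with hB1
  have hB10 : 0 < B1 := by positivity
  refine ⟨km * A1 * 3 + B1, δ, by positivity, hδ0, ?_⟩
  intro f hf hdeg κ K T Λ hκ hK hT hκΛ hΛ hΛ1
  have hΛ0 : 0 < Λ := lt_of_lt_of_le hκ hκΛ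
  set ε : ℝ := 2 * N * (Λ / c) ^ (1 / (N : ℝ)) with hε
  have hε0 : 0 < ε := by positivity
  by_cases hε1 : ε ≤ 1
  · -- main case
    set ρ : ℝ := 2 * N / ε with hρ
    have hρ0 : 0 < ρ := by positivity
    have hρ1 : 1 ≤ ρ := by
      rw [hρ, le_div_iff₀ hε0]
      have : (1 : ℝ) ≤ N := by exact_mod_cast hN1
      linarith
    have hρN : ρ ^ N * Λ = c := by
      have h1 : ρ = ((Λ / c) ^ (1 / (N : ℝ)))⁻¹ := by
        rw [hρ, hε]
        field_simp
      rw [h1, inv_pow, ← Real.rpow_natCast, ← Real.rpow_mul (by positivity),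
        one_div_mul_cancel hNr.ne', Real.rpow_one]
      field_simp
    have hw : ∀ k : Fin (m + 2), 0 < wts m κ K T k := by
      intro k
      unfold wts
      split_ifs
      · exact hκ
      · exact hK
      · linarith
    have hB := Pool.Agent.H116R3.Ex680B.taskB (Fin (m + 2))
      (fun (k i : Fin (m + 2)) => hasseDeriv (k : ℕ) (f i)) D hD1
      (fun k i => ((natDegree_hasseDeriv_le _ _).trans (Nat.sub_le _ _)).trans
        ((hdeg i).trans (le_max_left _ _)))
      (wts m κ K T) hw ρ hρ0 ?_ ε hε0 hε1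
    · refine (measure_mono ?_).trans (hB.trans ?_)
      · rintro z ⟨hz, u, hu, h0, h1, hj⟩
        refine ⟨⟨by linarith [hz.1], by linarith [hz.2]⟩, u, hu, fun k => ?_⟩
        rw [Lf_eq]
        have hval : |((hasseDeriv (k : ℕ) (Pf f u)).map (Int.castRingHom ℝ)).eval z| ≤
            wts m κ K T k := by
          unfold wts
          split_ifs with hk0 hk1
          · rw [hk0]; exact h0
          · rw [hk1]; exact h1
          · exact hj k k.2
        rw [Fintype.card_fin]
        have e1 : ε * ρ = 2 * N := by rw [hρ]; field_simp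
        rw [e1]
        have hwk := hw k
        have : (N : ℝ) * wts m κ K T k < 2 * N * wts m κ K T k := by nlinarith
        exact lt_of_le_of_lt (mul_le_mul_of_nonneg_left hval hNr.le) this
      · refine ENNReal.ofReal_le_ofReal ?_
        rw [Fintype.card_fin]
        have e2 : ε ^ (1 / (M : ℝ)) = A1 * Λ ^ δ := by
          rw [hε, Real.mul_rpow (by positivity) (by positivity), ← Real.rpow_mul (by positivity),
            hA1]
          have e3 : 1 / (N : ℝ) * (1 / (M : ℝ)) = δ := by
            rw [hδ]; field_simp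
          rw [e3, div_eq_mul_one_div Λ c, Real.mul_rpow hΛ0.le (by positivity)]
          ring
        have e4 : (((m + 2) * D : ℕ) : ℝ) = M := by rw [hM, hN]
        rw [e4, e2]
        have e5 : kmC (4 * ((M : ℝ) + 1) ^ 2) (m + 2) = km := by rw [hkm, hN]
        rw [e5]
        have : 0 ≤ B1 * Λ ^ δ := by positivity
        nlinarith
    · -- richness
      intro j hj v hv
      have hjN : j ≤ m + 2 := by
        have := hv.fintype_card_le_finrank
        simpa using this
      refine ⟨Fin.castLE hjN, ?_, ?_⟩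
      · have h1 := wron_ne_zero (fun a => Pf f (v a)) (indep_comb hf v hv)
        convert h1 using 3
        funext a b
        rw [Lf_eq]
        rfl
      · rw [Fintype.card_fin]
        have e4 : (((m + 2) * D : ℕ) : ℝ) = M := by rw [hM, hN]
        rw [e4]
        have e5 : (1 : ℝ) / ((M : ℝ) + 1) ^ ((m + 2) * D) = c := by rw [hc, hM, hN]
        rw [e5, ← hρN]
        have hpow : ρ ^ j ≤ ρ ^ N := pow_le_pow_right₀ hρ1 hjN
        refine mul_le_mul hpow ?_ ?_ (by positivity)
        · rcases Nat.lt_or_ge j 2 with h2 | h2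
          · have hj1 : j = 1 := by omega
            subst hj1
            rw [Fin.prod_univ_one]
            unfold wts
            simpa using hκΛ
          · obtain ⟨i, rfl⟩ : ∃ i, j = i + 2 := ⟨j - 2, by omega⟩
            have hi : i ≤ m := by omega
            have h3 : ∏ b : Fin (i + 2), wts m κ K T (Fin.castLE hjN b) = κ * K * T ^ i :=
              prod_wts m κ K T i hi
            rw [h3]
            refine le_trans ?_ hΛ
            have : T ^ i ≤ T ^ m := pow_le_pow_right₀ hT hi
            gcongr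
        · exact Finset.prod_nonneg fun b _ => (hw _).le
  · -- trivial case
    push Not at hε1
    have h1 : 1 ≤ (km * A1 * 3 + B1) * Λ ^ δ := by
      have h2 : 1 ≤ B1 * Λ ^ δ := by
        rw [hB1, ← Real.mul_rpow (by positivity) hΛ0.le]
        refine Real.one_le_rpow ?_ hδ0.le
        have h3 : 1 ≤ ε ^ N := one_le_pow₀ hε1.le
        have h4 : ε ^ N = (2 * N) ^ N / c * Λ := by
          rw [hε, mul_pow, ← Real.rpow_natCast ((Λ / c) ^ (1 / (N : ℝ))), ← Real.rpow_mul
            (by positivity), one_div_mul_cancel hNr.ne', Real.rpow_one]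
          ring
        rwa [h4] at h3
      have h5 : 0 ≤ km * A1 * 3 * Λ ^ δ := by positivity
      nlinarith
    calc volume _ ≤ volume (Set.Ico (0 : ℝ) 1) := measure_mono fun z hz => hz.1
      _ = ENNReal.ofReal 1 := by rw [Real.volume_Ico]; norm_num
      _ ≤ _ := ENNReal.ofReal_le_ofReal h1

end Q166.TR
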