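import Pool.Agent.Q273.TR.Stm

set_option autoImplicit false

namespace Q166.TR

open Polynomial Q273.TR

lemma coeff_Pv {n : ℕ} (u : Fin n → ℤ) (k : ℕ) :
    (Pv u).coeff k = if h : k < n then u ⟨k, h⟩ else 0 := by
  unfold Pv Pf
  rw [finsetSum_coeff]
  simp only [coeff_C_mul, coeff_X_pow]
  split_ifs with h
  · rw [Finset.sum_eq_single ⟨k, h⟩]
    · simp
    · intro b _ hb
      have : k ≠ (b : ℕ) := fun h' => hb (Fin.ext h'.symm)
      simp [this]
    · simp
  · refine Finset.sum_eq_zero fun b _ => ?_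
    have : k ≠ (b : ℕ) := fun h' => h (h' ▸ b.2)
    simp [this]

/-- coefficient vector -/
def cf (n : ℕ) (P : ℤ[X]) : Fin n → ℤ := fun i => P.coeff i

lemma cf_Pv {n : ℕ} (u : Fin n → ℤ) : cf n (Pv u) = u := by
  funext i
  unfold cf
  rw [coeff_Pv, dif_pos i.2]

lemma Pv_cf {n : ℕ} (P : ℤ[X]) (h : ∀ k, n ≤ k → P.coeff k = 0) : Pv (cf n P) = P := by
  ext k
  rw [coeff_Pv]
  split_ifs with hk
  · rfl
  · exact (h k (not_lt.mp hk)).symm

lemma natDegree_Pv_lt {n : ℕ} (u : Fin n → ℤ) (h : Pv u ≠ 0) : (Pv u).natDegree < n := by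
  by_contra hc
  push Not at hc
  have h1 := coeff_Pv u (Pv u).natDegree
  rw [dif_neg (not_lt.mpr hc), coeff_natDegree] at h1
  exact h (leadingCoeff_eq_zero.mp h1)

lemma Pv_add {n : ℕ} (a b : Fin n → ℤ) : Pv (a + b) = Pv a + Pv b := by
  unfold Pv Pf
  rw [← Finset.sum_add_distrib]
  refine Finset.sum_congr rfl (fun i _ => ?_)
  rw [Pi.add_apply, C_add, add_mul]

lemma Pv_sub {n : ℕ} (a b : Fin n → ℤ) : Pv (a - b) = Pv a - Pv b := by
  have := Pv_add (a - b) b
  rw [sub_add_cancel] at this
  rw [this, add_sub_cancel_right]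

lemma Pv_smul {n : ℕ} (c : ℤ) (a : Fin n → ℤ) : Pv (c • a) = C c * Pv a := by
  unfold Pv Pf
  rw [Finset.mul_sum]
  refine Finset.sum_congr rfl (fun i _ => ?_)
  rw [Pi.smul_apply, smul_eq_mul, C_mul, mul_assoc]

lemma ne_zero_of_div {q : ℕ} {G : ℤ[X]} (h : IsDiv q G) : G ≠ 0 := by
  intro h0
  have h1 := h.1
  rw [h0, Polynomial.map_zero] at h1
  exact not_squarefree_zero h1

/-- divisibility over the rationals and over the integers -/
lemma dvd_iff {G : ℤ[X]} (hG : G ≠ 0) (P : ℤ[X]) :
    G.map (Int.castRingHom ℚ) ∣ P.map (Int.castRingHom ℚ) ↔ G.primPart ∣ P := by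
  rw [IsPrimitive.Int.dvd_iff_map_cast_dvd_map_cast _ _ G.isPrimitive_primPart]
  have h1 : G.map (Int.castRingHom ℚ) =
      C ((G.content : ℤ) : ℚ) * G.primPart.map (Int.castRingHom ℚ) := by
    conv_lhs => rw [G.eq_C_content_mul_primPart]
    rw [Polynomial.map_mul, Polynomial.map_C]
    rfl
  have hc : (G.content : ℚ) ≠ 0 := by
    have : G.content ≠ 0 := by
      rw [Ne, content_eq_zero_iff]
      exact hG
    exact_mod_cast this
  rw [h1]
  have hu : IsUnit (C ((G.content : ℤ) : ℚ) : ℚ[X]) := isUnit_C.mpr (isUnit_iff_ne_zero.mpr hc)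
  constructor
  · intro h
    exact (dvd_mul_left _ _).trans h
  · intro h
    exact (hu.mul_left_dvd).mpr h

lemma mem_VG {G : ℤ[X]} {q s : ℕ} (u : Fin (s + 1) → ℤ) : u ∈ VG G q s ↔
    (G.map (Int.castRingHom ℚ) ∣ (Pv u).map (Int.castRingHom ℚ) ∧
    (G.natDegree < q → u (Fin.last s) = 0)) := Iff.rfl

/-- the coefficient vector of a multiple of `g` -/
noncomputable def mulMap (g : ℤ[X]) (m n : ℕ) : (Fin m → ℤ) →ₗ[ℤ] (Fin n → ℤ) where
  toFun w := cf n (g * Pv w)
  map_add' a b := by
    funext i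
    simp only [cf, Pv_add, mul_add, coeff_add, Pi.add_apply]
  map_smul' c a := by
    funext i
    simp only [cf, Pv_smul, Pi.smul_apply, smul_eq_mul, RingHom.id_apply]
    rw [mul_left_comm, coeff_C_mul]

theorem rank : S_RANK := by
  intro q s G hG hq
  have hG0 : G ≠ 0 := ne_zero_of_div hG
  set g := G.primPart with hg
  have hg0 : g ≠ 0 := G.isPrimitive_primPart.ne_zero
  have hgd : g.natDegree = G.natDegree := G.natDegree_primPart
  have hle : g.natDegree ≤ q := by rw [hgd]; exact hG.2.1
  have hge : q ≤ g.natDegree + 1 := by rw [hgd]; exact hG.2.2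
  set m := s + 1 - q with hm
  -- degrees of multiples
  have hdeg : ∀ w : Fin m → ℤ, ∀ k, g.natDegree + m ≤ k → (g * Pv w).coeff k = 0 := by
    intro w k hk
    by_cases h0 : Pv w = 0
    · rw [h0, mul_zero, coeff_zero]
    · have h1 := natDegree_Pv_lt w h0
      apply coeff_eq_zero_of_natDegree_lt
      exact lt_of_le_of_lt natDegree_mul_le (by omega)
  have hback : ∀ w : Fin m → ℤ, Pv (cf (s + 1) (g * Pv w)) = g * Pv w := by
    intro w
    apply Pv_cf
    intro k hk
    exact hdeg w k (by omega)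
  have hmem : ∀ w : Fin m → ℤ, mulMap g m (s + 1) w ∈ VG G q s := by
    intro w
    rw [mem_VG]
    change _ ∣ (Pv (cf (s + 1) (g * Pv w))).map (Int.castRingHom ℚ) ∧ _
    rw [hback, dvd_iff hG0]
    refine ⟨dvd_mul_right _ _, fun hlt => ?_⟩
    change (g * Pv w).coeff ((Fin.last s : Fin (s + 1)) : ℕ) = 0
    rw [Fin.val_last]
    apply hdeg
    rw [← hgd] at hlt
    omega
  let φ : (Fin m → ℤ) →ₗ[ℤ] VG G q s := (mulMap g m (s + 1)).codRestrict _ hmem
  have hφ : ∀ w, ((φ w : VG G q s) : Fin (s + 1) → ℤ) = cf (s + 1) (g * Pv w) := fun w => rfl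
  have hinj : Function.Injective φ := by
    rw [← LinearMap.ker_eq_bot, LinearMap.ker_eq_bot']
    intro w hw
    have h1 : cf (s + 1) (g * Pv w) = 0 := by
      rw [← hφ, hw]; rfl
    have h2 : g * Pv w = 0 := by
      rw [← hback, h1]
      unfold Pv Pf
      simp
    have h3 : Pv w = 0 := (mul_eq_zero.mp h2).resolve_left hg0
    rw [← cf_Pv w, h3]
    funext i
    simp [cf]
  have hsurj : Function.Surjective φ := by
    rintro ⟨u, hu⟩
    have hu' := (mem_VG u).mp hu
    rw [dvd_iff hG0] at hu'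
    obtain ⟨⟨Q, hQ⟩, hl⟩ := hu'
    refine ⟨cf m Q, ?_⟩
    apply Subtype.ext
    rw [hφ]
    have hPQ : Pv (cf m Q) = Q := by
      apply Pv_cf
      intro k hk
      by_cases hQ0 : Q = 0
      · rw [hQ0, coeff_zero]
      · apply coeff_eq_zero_of_natDegree_lt
        have hu0 : Pv u ≠ 0 := by
          rw [hQ]; exact mul_ne_zero hg0 hQ0
        have h1 : (Pv u).natDegree = g.natDegree + Q.natDegree := by
          rw [hQ]; exact natDegree_mul hg0 hQ0
        have h2 := natDegree_Pv_lt u hu0
        rcases lt_or_ge G.natDegree q with h3 | h3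
        · have h4 := hl h3
          have h5 : (Pv u).natDegree ≠ s := by
            intro h6
            have h7 := coeff_Pv u s
            rw [dif_pos (Nat.lt_succ_self s)] at h7
            have h8 : (Pv u).coeff s = 0 := h7.trans h4
            have h9 : (Pv u).coeff (Pv u).natDegree = 0 := by
              have := congrArg (Pv u).coeff h6
              exact this.trans h8
            rw [coeff_natDegree] at h9
            exact hu0 (leadingCoeff_eq_zero.mp h9)
          rw [← hgd] at h3
          omega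
        · rw [← hgd] at h3
          omega
    rw [hPQ, ← hQ, cf_Pv]
  have h := (LinearEquiv.ofBijective φ ⟨hinj, hsurj⟩).finrank_eq
  rw [← h, Module.finrank_fin_fun]
  omega

theorem inv : S_INV := by
  intro q s G u v hG huv
  have hG0 : G ≠ 0 := ne_zero_of_div hG
  have hc : Function.Injective (Int.castRingHom ℚ) := Int.cast_injective
  have hGm0 : G.map (Int.castRingHom ℚ) ≠ 0 := (Polynomial.map_ne_zero_iff hc).mpr hG0
  have huv' := (mem_VG (u - v)).mp huv
  rw [Pv_sub] at huv'
  obtain ⟨⟨R, hR⟩, hl⟩ := huv'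
  -- equality with the exact degree
  have hmain : resultant (Pv u) G s G.natDegree = resultant (Pv v) G s G.natDegree := by
    by_cases hR0 : R = 0
    · rw [hR0, mul_zero, ← Polynomial.map_zero (Int.castRingHom ℚ)] at hR
      have h1 := Polynomial.map_injective _ hc hR
      rw [sub_eq_zero.mp h1]
    · apply hc
      rw [← resultant_map_map, ← resultant_map_map]
      have h1 : (Pv u).map (Int.castRingHom ℚ) = (Pv v).map (Int.castRingHom ℚ) +
          G.map (Int.castRingHom ℚ) * R := by
        rw [← hR, Polynomial.map_sub]; ring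
      rw [h1]
      apply resultant_add_mul_left
      · have h2 : (G.map (Int.castRingHom ℚ) * R).natDegree = G.natDegree + R.natDegree := by
          rw [natDegree_mul hGm0 hR0, natDegree_map_eq_of_injective hc]
        rw [← hR, natDegree_map_eq_of_injective hc] at h2
        have h3 : Pv u - Pv v ≠ 0 := by
          intro h4
          rw [h4, Polynomial.map_zero] at hR
          exact mul_ne_zero hGm0 hR0 hR.symm
        rw [← Pv_sub] at h2 h3
        have h5 := natDegree_Pv_lt (u - v) h3
        omega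
      · rw [natDegree_map_eq_of_injective hc]
  unfold rs
  rcases lt_or_ge G.natDegree q with h1 | h1
  · have hq : q = G.natDegree + 1 := le_antisymm hG.2.2 h1
    rw [hq, resultant_add_right_deg _ _ _ _ _ le_rfl, resultant_add_right_deg _ _ _ _ _ le_rfl,
      hmain]
    have h2 := hl h1
    have h3 : u (Fin.last s) = v (Fin.last s) := by
      rw [Pi.sub_apply] at h2
      linarith
    have h4 : ∀ w : Fin (s + 1) → ℤ, (Pv w).coeff s = w (Fin.last s) := by
      intro w
      rw [coeff_Pv, dif_pos (Nat.lt_succ_self s)]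
      rfl
    rw [h4, h4, h3]
  · have hq : q = G.natDegree := le_antisymm h1 hG.2.1
    rw [hq]
    exact hmain

end Q166.TR
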